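import Pool.Agent.Helper21.RM.Base
import Pool.Agent.Helper36.MT7.G07

/-!
# T12: G07 (port to `RMot` of helper36's files)
-/

set_option autoImplicit false

open NumberField MU MT

open MT.H36

namespace MR.H36

variable {F : Type} [Field F] [NumberField F] {n w : ℕ} {h : Fin n → ℕ}

/-- the sum of the Hodge types -/
theorem sum_h (M : RMot F n w h) : 2 * ∑ j, h j = n * w := by
  classical
  set B : Matrix (Fin n) (Fin n) ℂ := (M.hodge : Matrix (Fin n) (Fin n) ℂ) with hB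
  set P : Matrix (Fin n) (Fin n) ℂ := B.transpose * bas ℂ M.ψ * B with hP
  have hBd : B.det ≠ 0 := ((Matrix.isUnit_iff_isUnit_det _).mp M.hodge.isUnit).ne_zero
  have hPd : P.det ≠ 0 := by
    rw [hP, Matrix.det_mul, Matrix.det_mul, Matrix.det_transpose]
    exact mul_ne_zero (mul_ne_zero hBd (bas_det_ne ℂ M.ψ_det)) hBd
  rw [Matrix.det_apply] at hPd
  obtain ⟨σ, -, hσ⟩ := Finset.exists_ne_zero_of_sum_ne_zero hPd
  have h1 : ∏ i, P (σ i) i ≠ 0 := by
    intro h0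
    rw [h0, smul_zero] at hσ
    exact hσ rfl
  rw [Finset.prod_ne_zero_iff] at h1
  have h2 : ∀ i, h (σ i) + h i = w := fun i => M.hodge_ψ (σ i) i (h1 i (Finset.mem_univ i))
  have h3 : ∑ i, (h (σ i) + h i) = n * w := by
    simp only [h2, Finset.sum_const, Finset.card_univ, Fintype.card_fin, smul_eq_mul]
  rw [Finset.sum_add_distrib, Equiv.sum_comp σ h] at h3
  omega

/-- the diagonal matrix of the action of `z` -/
noncomputable def dz (h : Fin n → ℕ) (w : ℕ) (z : ℂˣ) (j : Fin n) : ℂ :=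
  (z : ℂ) ^ h j * (starRingEnd ℂ (z : ℂ)) ^ (w - h j)

theorem hz_coe (B : Matrix.GeneralLinearGroup (Fin n) ℂ) (h : Fin n → ℕ) (w : ℕ) (z : ℂˣ) :
    (hz B h w z : Matrix (Fin n) (Fin n) ℂ) =
      (B : Matrix (Fin n) (Fin n) ℂ) * Matrix.diagonal (dz h w z) *
        ((B⁻¹ : Matrix.GeneralLinearGroup (Fin n) ℂ) : Matrix (Fin n) (Fin n) ℂ) := by
  unfold hz dz
  rw [Units.val_mul, Units.val_mul]
  rfl

/-- the action of `ℂˣ` is by similitudes -/
theorem hz_sim (M : RMot F n w h) (z : ℂˣ) :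
    (hz M.hodge h w z : Matrix (Fin n) (Fin n) ℂ).transpose * bas ℂ M.ψ *
      (hz M.hodge h w z : Matrix (Fin n) (Fin n) ℂ) =
        (((z : ℂ) * starRingEnd ℂ (z : ℂ)) ^ w) • bas ℂ M.ψ := by
  set B : Matrix (Fin n) (Fin n) ℂ := (M.hodge : Matrix (Fin n) (Fin n) ℂ) with hB
  set B' : Matrix (Fin n) (Fin n) ℂ :=
    ((M.hodge⁻¹ : Matrix.GeneralLinearGroup (Fin n) ℂ) : Matrix (Fin n) (Fin n) ℂ) with hB'
  have hBB : B * B' = 1 := Units.mul_inv M.hodge
  set D : Matrix (Fin n) (Fin n) ℂ := Matrix.diagonal (dz h w z) with hD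
  have h1 : D * (B.transpose * bas ℂ M.ψ * B) * D =
      (((z : ℂ) * starRingEnd ℂ (z : ℂ)) ^ w) • (B.transpose * bas ℂ M.ψ * B) := by
    ext i j
    rw [hD, Matrix.mul_diagonal, Matrix.diagonal_mul, Matrix.smul_apply, smul_eq_mul]
    by_cases h0 : (B.transpose * bas ℂ M.ψ * B) i j = 0
    · rw [h0]
      ring
    · have h2 := M.hodge_ψ i j h0
      have h3 : dz h w z i * dz h w z j = ((z : ℂ) * starRingEnd ℂ (z : ℂ)) ^ w := by
        unfold dz
        have h4 : (w - h i) + (w - h j) = w := by omega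
        calc _ = (z : ℂ) ^ (h i + h j) * (starRingEnd ℂ (z : ℂ)) ^ ((w - h i) + (w - h j)) := by
              rw [pow_add, pow_add]
              ring
          _ = _ := by rw [h2, h4, mul_pow]
      rw [← h3]
      ring
  rw [hz_coe]
  calc _ = B'.transpose * (D * (B.transpose * bas ℂ M.ψ * B) * D) * B' := by
        rw [Matrix.transpose_mul, Matrix.transpose_mul, Matrix.diagonal_transpose]
        simp only [Matrix.mul_assoc]
        rfl
    _ = _ := by
        rw [h1, Matrix.mul_smul, Matrix.smul_mul]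
        congr 1
        calc _ = (B'.transpose * B.transpose) * bas ℂ M.ψ * (B * B') := by
              simp only [Matrix.mul_assoc]
          _ = _ := by
              rw [← Matrix.transpose_mul, hBB, Matrix.transpose_one, Matrix.one_mul,
                Matrix.mul_one]

theorem hz_det (M : RMot F n w h) (m : ℕ) (hm : n = m + m) (z : ℂˣ) :
    (hz M.hodge h w z : Matrix (Fin n) (Fin n) ℂ).det =
      (((z : ℂ) * starRingEnd ℂ (z : ℂ)) ^ w) ^ m := by
  rw [hz_coe, Matrix.det_mul, Matrix.det_mul, Matrix.det_diagonal]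
  have h1 : (M.hodge : Matrix (Fin n) (Fin n) ℂ).det *
      ((M.hodge⁻¹ : Matrix.GeneralLinearGroup (Fin n) ℂ) : Matrix (Fin n) (Fin n) ℂ).det = 1 := by
    rw [← Matrix.det_mul]
    have h2 : (M.hodge : Matrix (Fin n) (Fin n) ℂ) *
      ((M.hodge⁻¹ : Matrix.GeneralLinearGroup (Fin n) ℂ) : Matrix (Fin n) (Fin n) ℂ) = 1 :=
        Units.mul_inv M.hodge
    rw [h2, Matrix.det_one]
  have h3 : ∏ j, dz h w z j = (((z : ℂ) * starRingEnd ℂ (z : ℂ)) ^ w) ^ m := by
    unfold dz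
    rw [Finset.prod_mul_distrib, Finset.prod_pow_eq_pow_sum, Finset.prod_pow_eq_pow_sum]
    have h4 := sum_h M
    have h5 : ∑ j, h j = w * m := by
      have h9 : n * w = 2 * (w * m) := by
        rw [hm]
        ring
      omega
    have h6 : ∑ j, (w - h j) = w * m := by
      have h7 : ∑ j, (w - h j) + ∑ j, h j = n * w := by
        rw [← Finset.sum_add_distrib]
        have h8 : ∀ j, w - h j + h j = w := fun j => Nat.sub_add_cancel (M.hodge_le j)
        simp only [h8, Finset.sum_const, Finset.card_univ, Fintype.card_fin, smul_eq_mul]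
      have h9 : n * w = 2 * (w * m) := by
        rw [hm]
        ring
      omega
    rw [h5, h6, ← mul_pow, ← pow_mul]
  rw [h3]
  calc _ = ((M.hodge : Matrix (Fin n) (Fin n) ℂ).det *
      ((M.hodge⁻¹ : Matrix.GeneralLinearGroup (Fin n) ℂ) : Matrix (Fin n) (Fin n) ℂ).det) *
        (((z : ℂ) * starRingEnd ℂ (z : ℂ)) ^ w) ^ m := by ring
    _ = _ := by rw [h1, one_mul]

/-- the tensor is a Hodge class -/
theorem tenD_hodge {m : ℕ} {h : Fin (m + m) → ℕ} (M : RMot F (m + m) w h) (hm : 1 ≤ m + m) :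
    M.IsHodge (tenD M.ψ) := by
  intro z
  refine (tenD_iff ℂ M.ψ (psi_ne M.ψ_det hm) (hz M.hodge h w z)
    (((z : ℂ) * starRingEnd ℂ (z : ℂ)) ^ w) ?_ (hz_sim M z)).mpr (hz_det M m rfl z)
  apply pow_ne_zero
  apply mul_ne_zero z.ne_zero
  exact (map_ne_zero (starRingEnd ℂ)).mpr z.ne_zero



variable {F : Type} [Field F] [NumberField F] {n w : ℕ} {h : Fin n → ℕ}

/-- the character `det(ρ) cyc ^ (w m)` (quadratic for `n = 2 m`) -/
noncomputable def chi (M : RMot F n w h) (l : ℕ) [Fact l.Prime] (m : ℕ) : Gal F →* ℚ_[l] where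
  toFun σ := (mat (M.ρ l) σ).det * (((cyc l F σ : ℤ_[l]ˣ) : ℤ_[l]) : ℚ_[l]) ^ (w * m)
  map_one' := by
    rw [map_one, map_one, Matrix.det_one, Units.val_one, PadicInt.coe_one, one_pow, one_mul]
  map_mul' := by
    intro a b
    rw [map_mul, map_mul, Matrix.det_mul, Units.val_mul, PadicInt.coe_mul, mul_pow]
    ring

theorem chi_sq (M : RMot F n w h) (l : ℕ) [Fact l.Prime] (m : ℕ) (hm : n = m + m) (σ : Gal F) :
    chi M l m σ = 1 ∨ chi M l m σ = -1 := by
  have h1 := congrArg Matrix.det (M.ψ_gal l σ)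
  rw [Matrix.det_smul, Matrix.det_mul, Matrix.det_mul, Matrix.det_transpose,
    Fintype.card_fin] at h1
  have h2 : (bas ℚ_[l] M.ψ).det ≠ 0 := bas_det_ne ℚ_[l] M.ψ_det
  have h3 : (chi M l m σ) ^ 2 * (bas ℚ_[l] M.ψ).det = 1 * (bas ℚ_[l] M.ψ).det := by
    rw [one_mul]
    conv_rhs => rw [← h1]
    change ((mat (M.ρ l) σ).det * (((cyc l F σ : ℤ_[l]ˣ) : ℤ_[l]) : ℚ_[l]) ^ (w * m)) ^ 2 * _ = _
    have h4 : ((((cyc l F σ : ℤ_[l]ˣ) : ℤ_[l]) : ℚ_[l]) ^ w) ^ n =
        ((((cyc l F σ : ℤ_[l]ˣ) : ℤ_[l]) : ℚ_[l]) ^ (w * m)) ^ 2 := by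
      rw [← pow_mul, ← pow_mul, hm]
      congr 1
      ring
    rw [h4]
    ring
  have h5 := mul_right_cancel₀ h2 h3
  exact sq_eq_one_iff.mp h5

theorem chi_continuous (M : RMot F n w h) (l : ℕ) [Fact l.Prime] (m : ℕ) :
    Continuous (chi M l m) := by
  have h1 : Continuous fun σ => mat (M.ρ l) σ := Units.continuous_val.comp (M.continuous l)
  have h2 : Continuous fun σ : Gal F => cyc l F σ :=
    cyclotomicCharacter.continuous l F (AlgebraicClosure F)
  have h3' : Continuous fun σ : Gal F => ((cyc l F σ : ℤ_[l]ˣ) : ℤ_[l]) :=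
    Units.continuous_val.comp h2
  have h3 : Continuous fun σ : Gal F => (((cyc l F σ : ℤ_[l]ˣ) : ℤ_[l]) : ℚ_[l]) :=
    continuous_subtype_val.comp h3'
  exact (h1.matrix_det).mul (h3.pow (w * m))

theorem chi_open (M : RMot F n w h) (l : ℕ) [Fact l.Prime] (m : ℕ) (hm : n = m + m) :
    IsOpen ((chi M l m).ker : Set (Gal F)) := by
  have h1 : ((chi M l m).ker : Set (Gal F)) = (chi M l m) ⁻¹' {(-1 : ℚ_[l])}ᶜ := by
    ext σ
    rw [SetLike.mem_coe, MonoidHom.mem_ker]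
    simp only [Set.mem_preimage, Set.mem_compl_iff, Set.mem_singleton_iff]
    constructor
    · intro h2 h3
      rw [h2] at h3
      have h4 : (2 : ℚ_[l]) = 0 := by linear_combination h3
      exact two_ne_zero h4
    · intro h2
      rcases chi_sq M l m hm σ with h3 | h3
      · exact h3
      · exact absurd h3 h2
  rw [h1]
  exact isClosed_singleton.isOpen_compl.preimage (chi_continuous M l m)

end MR.H36

namespace MR

open MR.H36 in
/-- G07 -/
theorem st_G07 (hT : ST_TEN) : ST_G07 := by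
  intro F _ _ n w h M l _ K _ _ hn g hg
  have hK : CharZero K := charZero_of_injective_algebraMap (algebraMap ℚ_[l] K).injective
  have h1 : g ∈ Sim M.ψ K := by
    rw [hT.2 K n M.ψ M.ψ_det g]
    refine hT.1 ℚ_[l] n 2 2 (M.ρ l '' (⊤ : Subgroup (Gal F))) (polTen M.ψ) ?_ K g
      (hg ⊤ isOpen_univ)
    rintro _ ⟨σ, -, rfl⟩
    exact M.mot_gal 2 2 _ M.mot_pol l σ
  obtain ⟨c, hc⟩ := h1
  refine ⟨c, hc, ?_⟩
  rintro - ⟨m, rfl⟩
  have hc0 := mult_ne K M.ψ_det hn g c hc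
  have h2 : (m + m) / 2 = m := by omega
  rw [h2]
  refine (tenD_iff K M.ψ (psi_ne M.ψ_det hn) g c hc0 hc).mp ?_
  refine hT.1 ℚ_[l] (m + m) (m + m) (m + m) (M.ρ l '' (chi M l m).ker) (tenD M.ψ) ?_ K g
    (hg _ (chi_open M l m rfl))
  rintro _ ⟨σ, hσ, rfl⟩
  have h3 : chi M l m σ = 1 := MonoidHom.mem_ker.mp hσ
  have h4 := M.ψ_gal l σ
  have h5 := cyc_ne l σ
  set u : ℚ_[l] := (((cyc l F σ : ℤ_[l]ˣ) : ℤ_[l]) : ℚ_[l]) with hu
  have h6 : ((M.ρ l σ : Matrix.GeneralLinearGroup (Fin (m + m)) ℚ_[l]) :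
      Matrix (Fin (m + m)) (Fin (m + m)) ℚ_[l]).transpose * bas ℚ_[l] M.ψ *
      ((M.ρ l σ : Matrix.GeneralLinearGroup (Fin (m + m)) ℚ_[l]) :
      Matrix (Fin (m + m)) (Fin (m + m)) ℚ_[l]) = ((u ^ w)⁻¹) • bas ℚ_[l] M.ψ := by
    conv_rhs => rw [← h4]
    rw [smul_smul, inv_mul_cancel₀ (pow_ne_zero w h5), one_smul]
    rfl
  refine (tenD_iff ℚ_[l] M.ψ (psi_ne M.ψ_det hn) (M.ρ l σ) ((u ^ w)⁻¹)
    (inv_ne_zero (pow_ne_zero w h5)) h6).mpr ?_
  have h7 : (mat (M.ρ l) σ).det * u ^ (w * m) = 1 := h3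
  rw [inv_pow, ← pow_mul]
  exact eq_inv_of_mul_eq_one_left h7

end MR
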