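import Pool.Agent.Helper21.RM.Base
import Pool.Agent.Helper43.MT7.HDG7

/-!
# T12: HDG7 (port to `RMot` of helper43's file)
-/

set_option autoImplicit false

open NumberField MU MT

open MT.Hdg

namespace MR
namespace Hdg

variable {F : Type} [Field F] [NumberField F] {n w : ℕ} {h : Fin n → ℕ}

lemma sum_h (M : RMot F n w h) : 2 * ∑ j, h j = n * w := by
  have hP : ((M.hodge : Matrix (Fin n) (Fin n) ℂ).transpose * bas ℂ M.ψ *
      (M.hodge : Matrix (Fin n) (Fin n) ℂ)).det ≠ 0 := by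
    rw [Matrix.det_mul, Matrix.det_mul, Matrix.det_transpose]
    have h1 : (M.hodge : Matrix (Fin n) (Fin n) ℂ).det ≠ 0 := by
      have := (Matrix.isUnit_iff_isUnit_det _).1 (M.hodge).isUnit
      exact this.ne_zero
    exact mul_ne_zero (mul_ne_zero h1 (bas_det ℂ M.ψ_det)) h1
  obtain ⟨σ, hσ⟩ := exists_perm hP
  have h2 : ∀ i, h (σ i) + h i = w := fun i => M.hodge_ψ _ _ (hσ i)
  have h3 : ∑ i, (h (σ i) + h i) = n * w := by
    rw [Finset.sum_congr rfl (fun i _ => h2 i)]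
    simp
  rw [Finset.sum_add_distrib, Equiv.sum_comp σ h] at h3
  omega

/-- the action of `z` in the Hodge basis -/
noncomputable def dz {n : ℕ} (h : Fin n → ℕ) (w : ℕ) (z : ℂˣ) : Fin n → ℂ :=
  fun j => (z : ℂ) ^ h j * ((starRingEnd ℂ) (z : ℂ)) ^ (w - h j)

lemma hz_eq (B : Matrix.GeneralLinearGroup (Fin n) ℂ) (z : ℂˣ) :
    (hz B h w z : Matrix (Fin n) (Fin n) ℂ) = (B : Matrix (Fin n) (Fin n) ℂ) *
      Matrix.diagonal (dz h w z) *
      ((B⁻¹ : Matrix.GeneralLinearGroup (Fin n) ℂ) : Matrix (Fin n) (Fin n) ℂ) := by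
  unfold hz
  rw [Units.val_mul, Units.val_mul]
  congr 2

lemma hz_det (M : RMot F n w h) (z : ℂˣ) {m : ℕ} (hm : n = m + m) :
    (hz M.hodge h w z : Matrix (Fin n) (Fin n) ℂ).det =
      (((z : ℂ) * (starRingEnd ℂ) (z : ℂ)) ^ w) ^ m := by
  rw [hz_eq, Matrix.det_mul, Matrix.det_mul, mul_comm, ← mul_assoc, ← Matrix.det_mul,
    ← Units.val_mul, inv_mul_cancel, Units.val_one, Matrix.det_one, one_mul,
    Matrix.det_diagonal]
  simp only [dz]
  rw [Finset.prod_mul_distrib, Finset.prod_pow_eq_pow_sum, Finset.prod_pow_eq_pow_sum]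
  have h1 := sum_h M
  have hnw : n * w = 2 * (m * w) := by
    calc n * w = (m + m) * w := by rw [← hm]
      _ = _ := by ring
  have h2 : ∑ j, h j = m * w := by omega
  have h3 : ∑ j, (w - h j) = m * w := by
    have h4 : ∑ j, (w - h j) + ∑ j, h j = n * w := by
      rw [← Finset.sum_add_distrib, Finset.sum_congr rfl
        (fun j _ => Nat.sub_add_cancel (M.hodge_le j))]
      simp
    omega
  rw [h2, h3, ← mul_pow, ← pow_mul, mul_comm m w]

lemma hz_sim (M : RMot F n w h) (z : ℂˣ) :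
    (hz M.hodge h w z : Matrix (Fin n) (Fin n) ℂ).transpose * bas ℂ M.ψ *
      (hz M.hodge h w z : Matrix (Fin n) (Fin n) ℂ) =
      (((z : ℂ) * (starRingEnd ℂ) (z : ℂ)) ^ w) • bas ℂ M.ψ := by
  set B : Matrix (Fin n) (Fin n) ℂ := (M.hodge : Matrix (Fin n) (Fin n) ℂ) with hB
  set C : Matrix (Fin n) (Fin n) ℂ :=
    ((M.hodge⁻¹ : Matrix.GeneralLinearGroup (Fin n) ℂ) : Matrix (Fin n) (Fin n) ℂ) with hC
  have hBC : B * C = 1 := by
    rw [hB, hC, ← Units.val_mul, mul_inv_cancel]; rfl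
  set P := B.transpose * bas ℂ M.ψ * B with hP
  have hD : Matrix.diagonal (dz h w z) * P * Matrix.diagonal (dz h w z) =
      (((z : ℂ) * (starRingEnd ℂ) (z : ℂ)) ^ w) • P := by
    ext i j
    rw [Matrix.mul_diagonal, Matrix.diagonal_mul, Matrix.smul_apply, smul_eq_mul]
    by_cases h0 : P i j = 0
    · rw [h0]; ring
    · have h1 : h i + h j = w := M.hodge_ψ i j h0
      have h2 : dz h w z i * dz h w z j = ((z : ℂ) * (starRingEnd ℂ) (z : ℂ)) ^ w := by
        simp only [dz]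
        have e1 : w - h i = h j := by omega
        have e2 : w - h j = h i := by omega
        rw [e1, e2, ← h1]; ring
      rw [← h2]; ring
  rw [hz_eq, Matrix.transpose_mul, Matrix.transpose_mul, Matrix.diagonal_transpose]
  have h3 : C.transpose * P * C = bas ℂ M.ψ := by
    have h2 : C.transpose * B.transpose = 1 := by
      rw [← Matrix.transpose_mul, hBC, Matrix.transpose_one]
    calc C.transpose * P * C = (C.transpose * B.transpose) * bas ℂ M.ψ * (B * C) := by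
          rw [hP]; simp only [Matrix.mul_assoc]
      _ = bas ℂ M.ψ := by rw [h2, hBC, Matrix.one_mul, Matrix.mul_one]
  calc C.transpose * (Matrix.diagonal (dz h w z) * B.transpose) * bas ℂ M.ψ *
        (B * Matrix.diagonal (dz h w z) * C)
      = C.transpose * (Matrix.diagonal (dz h w z) * P * Matrix.diagonal (dz h w z)) * C := by
        rw [hP]; simp only [Matrix.mul_assoc]
    _ = _ := by rw [hD, Matrix.mul_smul, Matrix.smul_mul, h3]

lemma pf_hodge (M : RMot F n w h) {m : ℕ} (hm : n = m + m) : M.IsHodge (pf m M.ψ) := by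
  intro z
  have hz0 : (z : ℂ) * (starRingEnd ℂ) (z : ℂ) ≠ 0 := by
    refine mul_ne_zero z.ne_zero ?_
    rw [Ne, map_eq_zero]
    exact z.ne_zero
  have hc : (((z : ℂ) * (starRingEnd ℂ) (z : ℂ)) ^ w) ≠ 0 := pow_ne_zero _ hz0
  rw [act_pf m M.ψ ℂ _ _ hc (hz_sim M z)]
  funext i j
  rw [hz_det M z hm, ← mul_pow, mul_inv_cancel₀ hc, one_pow, one_mul]

end Hdg

open Hdg in
theorem st_HDG7 (hTEN : ST_TEN) : ST_HDG7 := by
  intro F _ _ n w h M K _ _ hn g hg
  have hsim : g ∈ Sim M.ψ K := (hTEN.2 K n M.ψ M.ψ_det g).2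
    (hg 2 2 (polTen M.ψ) (M.mot_hodge 2 2 _ M.mot_pol))
  obtain ⟨c, hc⟩ := hsim
  refine ⟨c, hc, fun _ hev => ?_⟩
  obtain ⟨m, hm⟩ := hev
  have hψ := bas_det K M.ψ_det
  have hdet0 : (0 : Matrix (Fin n) (Fin n) K).det = 0 := by
    have : Nonempty (Fin n) := ⟨⟨0, hn⟩⟩
    exact Matrix.det_zero
  have hc0 : c ≠ 0 := by
    rintro rfl
    have h1 : ((g : Matrix (Fin n) (Fin n) K).transpose * bas K M.ψ *
      (g : Matrix (Fin n) (Fin n) K)).det ≠ 0 := by
      rw [Matrix.det_mul, Matrix.det_mul, Matrix.det_transpose]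
      have h2 : (g : Matrix (Fin n) (Fin n) K).det ≠ 0 :=
        ((Matrix.isUnit_iff_isUnit_det _).1 g.isUnit).ne_zero
      exact mul_ne_zero (mul_ne_zero h2 hψ) h2
    rw [hc, zero_smul, hdet0] at h1
    exact h1 rfl
  obtain ⟨x, y, hxy⟩ : ∃ x y, bas K M.ψ x y ≠ 0 := by
    by_contra hcon
    push Not at hcon
    apply hψ
    have : bas K M.ψ = 0 := by ext x y; exact hcon x y
    rw [this, hdet0]
  have h1 := hg n (m + m) (pf m M.ψ) (pf_hodge M hm)
  rw [act_pf m M.ψ K g c hc0 hc] at h1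
  have h2 := congrFun (congrFun h1 id) (Fin.append (fun _ => x) (fun _ => y))
  have h3 : (pf m M.ψ).base K id (Fin.append (fun _ => x) (fun _ => y)) ≠ 0 := by
    rw [pf_base, Em_id, Matrix.det_one, one_mul]
    refine Finset.prod_ne_zero_iff.2 fun r _ => ?_
    rw [Fin.append_left, Fin.append_right]
    exact hxy
  have h4 : (g : Matrix (Fin n) (Fin n) K).det * c⁻¹ ^ m = 1 := by
    have h5 := sub_eq_zero.2 h2
    have h6 : ((g : Matrix (Fin n) (Fin n) K).det * c⁻¹ ^ m - 1) *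
        (pf m M.ψ).base K id (Fin.append (fun _ => x) (fun _ => y)) = 0 := by
      rw [sub_mul, one_mul]; exact h5
    exact sub_eq_zero.1 ((mul_eq_zero.1 h6).resolve_right h3)
  have hm2 : n / 2 = m := by omega
  rw [hm2]
  rw [inv_pow] at h4
  have h7 : c ^ m ≠ 0 := pow_ne_zero _ hc0
  field_simp at h4
  exact h4

end MR
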