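import Pool.Agent.Helper21.RM.Base
import Pool.Agent.Helper6.MT9.HLA

/-!
# T12: HLA, HWT (port to `RMot` of helper6's files)
-/

set_option autoImplicit false

open NumberField MU MT HD

namespace MR

variable {F : Type} [Field F] [NumberField F] {n w : ℕ} {h : Fin n → ℕ}

/-- the Lie algebra of the Mumford-Tate group: the matrices which kill all Hodge tensors -/
def Killers (M : RMot F n w h) : Set (Matrix (Fin n) (Fin n) ℚ) :=
  {A | ∀ (a b : ℕ) (t : Tensor n a b ℚ), M.IsHodge t → Kill A t}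

/-- the Lie algebra of the Mumford-Tate group as a subspace -/
def mlie (M : RMot F n w h) : Submodule ℚ (Matrix (Fin n) (Fin n) ℚ) where
  carrier := Killers M
  add_mem' := fun hA hB a b t ht => (hA a b t ht).add (hB a b t ht)
  zero_mem' := fun _ _ t _ => kill_zero t
  smul_mem' := fun c _ hA a b t ht => (hA a b t ht).smul c

theorem mem_mlie (M : RMot F n w h) (A : Matrix (Fin n) (Fin n) ℚ) :
    A ∈ mlie M ↔ ∀ (a b : ℕ) (t : Tensor n a b ℚ), M.IsHodge t → Kill A t := Iff.rfl

/-- the complex matrices which kill all Hodge tensors -/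
theorem mem_spn_mlie (M : RMot F n w h) (X : Matrix (Fin n) (Fin n) ℂ) :
    X ∈ spn ℂ (mlie M) ↔ ∀ (a b : ℕ) (t : Tensor n a b ℚ), M.IsHodge t → Kill X (t.base ℂ) := by
  constructor
  · intro hX a b t ht
    unfold spn at hX
    induction hX using Submodule.span_induction with
    | mem x hx =>
      obtain ⟨A, hA, rfl⟩ := hx
      have h1 := (hA a b t ht).map (algebraMap ℚ ℂ)
      have h2 : (fun i j => algebraMap ℚ ℂ (t i j) : Tensor n a b ℂ) = t.base ℂ := by
        funext i j
        simp [Tensor.base]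
      rw [h2] at h1
      exact h1
    | zero => exact kill_zero _
    | add x y _ _ hx hy => exact hx.add hy
    | smul c x _ hx => exact hx.smul c
  · intro hX
    refine mem_span_of_forms
      (I := Σ (a : ℕ) (b : ℕ), {t : Tensor n a b ℚ // M.IsHodge t} × (Fin a → Fin n) ×
        (Fin b → Fin n))
      (fun f i j => (dtp f.1 (Matrix.single i j (1 : ℚ)) *
        (Matrix.of f.2.2.1.1 : Matrix (Fin f.1 → Fin n) (Fin f.2.1 → Fin n) ℚ) -
      (Matrix.of f.2.2.1.1 : Matrix (Fin f.1 → Fin n) (Fin f.2.1 → Fin n) ℚ) *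
        dtp f.2.1 (Matrix.single i j (1 : ℚ))) f.2.2.2.1 f.2.2.2.2) (mlie M) ?_ ℂ X ?_
    · intro A hA a b t ht
      unfold Kill
      rw [← sub_eq_zero]
      ext p q
      rw [← sum_single ℚ t A p q]
      exact hA ⟨a, b, ⟨t, ht⟩, p, q⟩
    · rintro ⟨a, b, ⟨t, ht⟩, p, q⟩
      have h1 := hX a b t ht
      unfold Kill at h1
      rw [← sub_eq_zero] at h1
      have h2 := sum_single ℂ (t.base ℂ) X p q
      rw [h1, Matrix.zero_apply] at h2
      rw [← h2]
      refine Finset.sum_congr rfl fun i _ => Finset.sum_congr rfl fun j _ => ?_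
      congr 1
      have h3 : (Matrix.of (t.base ℂ) : Matrix (Fin a → Fin n) (Fin b → Fin n) ℂ) =
          (Matrix.of t : Matrix (Fin a → Fin n) (Fin b → Fin n) ℚ).map (algebraMap ℚ ℂ) := by
        ext p q
        simp [Tensor.base]
      have h4 : (Matrix.single i j (1 : ℂ)) = (Matrix.single i j (1 : ℚ)).map (algebraMap ℚ ℂ) := by
        ext p q
        simp only [Matrix.single, Matrix.of_apply, Matrix.map_apply]
        split_ifs <;> simp
      rw [h3, h4, ← dtp_map, ← dtp_map, ← Matrix.map_mul, ← Matrix.map_mul]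
      exact map_sub (algebraMap ℚ ℂ) _ _

theorem hodge_pol (M : RMot F n w h) : M.IsHodge (polTen M.ψ) :=
  fun z => M.mot_hodge 2 2 _ M.mot_pol z

theorem hodge_deg (M : RMot F n w h) (hw : 0 < w) {a b : ℕ} (t : Tensor n a b ℚ)
    (ht : M.IsHodge t) : a = b ∨ t = 0 :=
  (st_HOD n w h M.hodge a b t hw M.hodge_le ht).1

theorem mlie_sim (M : RMot F n w h) (A : Matrix (Fin n) (Fin n) ℚ) (hA : A ∈ mlie M) :
    ∃ c : ℚ, A.transpose * M.ψ + M.ψ * A = c • M.ψ :=
  kill_pol M.ψ A M.ψ_det (hA 2 2 _ (hodge_pol M))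

/-- the derivative of the Hodge cocharacter is in the Lie algebra -/
theorem hodge_mem_spn (M : RMot F n w h) (hw : 0 < w) :
    (M.hodge : Matrix (Fin n) (Fin n) ℂ) * Matrix.diagonal (fun j => (h j : ℂ)) *
      ((M.hodge⁻¹ : Matrix.GeneralLinearGroup (Fin n) ℂ) : Matrix (Fin n) (Fin n) ℂ) ∈
        spn ℂ (mlie M) := by
  rw [mem_spn_mlie]
  intro a b t ht
  exact (st_HOD n w h M.hodge a b t hw M.hodge_le ht).2

/-- HLA -/
theorem st_HLA : ST_HLA := by
  intro F _ _ n w h M
  refine ⟨mlie M, ?_, ?_, ?_, ?_⟩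
  · intro A
    exact mem_mlie M A
  · intro A hA B hB a b t ht
    exact (hA a b t ht).lie (hB a b t ht)
  · exact mlie_sim M
  · rcases Nat.eq_zero_or_pos w with h0 | h0
    · have h1 : (fun j => (h j : ℂ)) = fun _ => 0 := by
        funext j
        have := M.hodge_le j
        have h2 : h j = 0 := by omega
        rw [h2, Nat.cast_zero]
      rw [h1]
      have h2 : Matrix.diagonal (fun _ : Fin n => (0 : ℂ)) = 0 := Matrix.diagonal_zero
      rw [h2, Matrix.mul_zero, Matrix.zero_mul]
      exact Submodule.zero_mem _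
    · exact hodge_mem_spn M h0


/-- HWT -/
theorem st_HWT : ST_HWT := by
  intro F _ _ n w h M p q t hw ht h0
  exact (hodge_deg M hw t ht).resolve_right h0

end MR
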