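import Pool.Agent.Helper21.RM.G07

/-!
# T12: HSM (port to `RMot`)
-/

set_option autoImplicit false

open NumberField MU MT

namespace MR

/-- HSM -/
theorem st_HSM : ST_HSM := by
  intro F _ _ n w h M
  exact MR.H36.sum_h M

end MR
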