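import Pool.Agent.Helper21.RM.Base
import Pool.Agent.Helper21.MT9.IRL

/-!
# T12: IRL (port to `RMot`)
-/

set_option autoImplicit false

open NumberField MU MT

namespace MR

/-- IRL -/
theorem st_IRL (lgp : ST_LGP) (den : ST_DEN) (oi1 : ST_OI1) (oi2 : ST_OI2) (zar : ST_ZAR)
    (hsm : ST_HSM) : ST_IRL := by
  intro F _ _ n w h M l _ hw hM H hH K _ _ U hU
  rcases hM with hM | ⟨hmid, hirr⟩
  · obtain ⟨V, hV, h1V, hVz⟩ := lgp l n
    have hpre : (M.ρ l) ⁻¹' V ∈ nhds (1 : Gal F) := by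
      apply (hV.preimage (M.continuous l)).mem_nhds
      show M.ρ l 1 ∈ V
      rw [map_one]
      exact h1V
    obtain ⟨E, hE, hEV⟩ := (krullTopology_mem_nhds_one_iff F (AlgebraicClosure F) _).mp hpre
    have hEo : IsOpen (E.fixingSubgroup : Set (Gal F)) := E.fixingSubgroup_isOpen
    set H' : Subgroup (Gal F) := H ⊓ E.fixingSubgroup with hH'
    have hH'o : IsOpen (H' : Set (Gal F)) := hH.inter hEo
    obtain ⟨hi, hc⟩ := hM H' hH'o
    refine den ℚ_[l] K n {A | ∃ g ∈ H', A = mat (M.ρ l) g} ?_ ?_ U ?_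
    · intro W hW
      refine irr_stable hi W ?_
      intro g v hv
      exact hW _ ⟨g, g.2, rfl⟩ v hv
    · intro Y hY
      exact hc Y fun g hg => hY _ ⟨g, hg, rfl⟩
    · rintro _ ⟨g, hg, rfl⟩ v hv
      obtain ⟨z, hz1, hz2⟩ := hVz (M.ρ l g) (hEV hg.2)
      have hz3 := hz2 (H.map (M.ρ l)) (Subgroup.mem_map_of_mem _ hg.1)
      exact stable_adjoin hz1 U (hU z hz3) v hv
  · obtain ⟨C, _, _, _, P, hP⟩ := M.sen_span l
    haveI : CharZero C := charZero_of_injective_algebraMap (algebraMap ℚ_[l] C).injective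
    obtain ⟨H₁, hle, hnor, hopen, -⟩ := exists_core H hH
    set a := LieZ (H₁.map (M.ρ l)) with ha
    obtain ⟨zbr, znor, -, zsim, -⟩ := zar ℚ_[l] n (H₁.map (M.ρ l))
    have hdet := bas_det ℚ_[l] M.ψ M.ψ_det
    have hn : 1 ≤ n := by
      obtain ⟨j, -⟩ := Finset.card_eq_one.mp hmid
      exact Nat.one_le_iff_ne_zero.mpr (fun h0 => by subst h0; exact j.elim0)
    have hev : Even w := by
      obtain ⟨j0, hj0⟩ := Finset.card_eq_one.mp hmid
      have h1 : j0 ∈ (Finset.univ.filter fun j => 2 * h j = w) := by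
        rw [hj0]; exact Finset.mem_singleton_self _
      have h2 := (Finset.mem_filter.mp h1).2
      exact ⟨h j0, by omega⟩
    have hsym : (bas ℚ_[l] M.ψ).transpose = bas ℚ_[l] M.ψ := by
      rcases bas_sym' ℚ_[l] M.ψ w M.ψ_sym with ⟨h2, -⟩ | ⟨-, h2⟩
      · exact absurd hev (Nat.not_even_iff_odd.mpr h2)
      · exact h2
    have hsim : ∀ A ∈ a, ∃ c : ℚ_[l], A.transpose * bas ℚ_[l] M.ψ + bas ℚ_[l] M.ψ * A =
        c • bas ℚ_[l] M.ψ := by
      apply zsim _ hdet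
      rintro _ ⟨g, -, rfl⟩
      exact ⟨_, M.gal_sim l g⟩
    obtain ⟨e, he0, he1, he2, he3⟩ := mid_facts hmid P _ rfl
    have hΘ := theta_sim hn (bas ℚ_[l] M.ψ) hdet a hsim P _ rfl (hP H₁ hopen) (hsm F n w h M)
    have hirrG : ∀ W : Submodule ℚ_[l] (Fin n → ℚ_[l]), (∀ g ∈ (M.ρ l).range, ∀ v ∈ W,
        (g : Matrix (Fin n) (Fin n) ℚ_[l]).mulVec v ∈ W) → W = ⊥ ∨ W = ⊤ := by
      intro W hW
      refine irr_stable hirr W ?_
      intro g v hv
      exact hW _ ⟨g, rfl⟩ v hv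
    have hLI : LIrr a := by
      refine oi1 ℚ_[l] C n (bas ℚ_[l] M.ψ) (M.ρ l).range a _ ((w : C) / 2) e hdet hsym hsim ?_ ?_
        hirrG (hP H₁ hopen) hΘ he0 he1 he2 he3
      · rintro _ ⟨g, rfl⟩
        exact ⟨_, M.gal_sim l g⟩
      · rintro _ ⟨g, rfl⟩ A hA
        refine znor (M.ρ l g) ?_ A hA
        rintro _ ⟨s, hs, rfl⟩
        refine ⟨g * s * g⁻¹, hnor.conj_mem s hs g, ?_⟩
        rw [map_mul, map_mul, map_inv]
    have hcm := oi2 ℚ_[l] C n (bas ℚ_[l] M.ψ) a _ ((w : C) / 2) e hdet hsym hsim hLI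
      (hP H₁ hopen) hΘ he0 he1 he2 he3
    refine den ℚ_[l] K n (a : Set (Matrix (Fin n) (Fin n) ℚ_[l])) hLI hcm U ?_
    intro A hA
    exact hU A (LieZ_mono (Subgroup.map_mono hle) hA)

end MR
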