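import Pool.Agent.Helper21.RM.Stmts
import Pool.Agent.Helper21.MT9.FUL9
import Pool.Agent.Helper11.MT7.Main

/-!
# T12: similitudes and Sen's theorem (port to `RMot`)
-/

set_option autoImplicit false

open NumberField MU MT

namespace MR

variable {F : Type} [Field F] [NumberField F] {n w : ℕ} {h : Fin n → ℕ}

/-- the elements of the image are similitudes -/
theorem RMot.gal_sim (M : RMot F n w h) (l : ℕ) [Fact l.Prime] (g : Gal F) :
    (mat (M.ρ l) g).transpose * bas ℚ_[l] M.ψ * mat (M.ρ l) g =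
      ((((cyc l F g : ℤ_[l]ˣ) : ℤ_[l]) : ℚ_[l]) ^ w)⁻¹ • bas ℚ_[l] M.ψ := by
  have h1 := M.ψ_gal l g
  have h2 : (((cyc l F g : ℤ_[l]ˣ) : ℤ_[l]) : ℚ_[l]) ^ w ≠ 0 := by
    apply pow_ne_zero
    intro h0
    have h3 : ((cyc l F g : ℤ_[l]ˣ) : ℤ_[l]) = 0 := by
      apply PadicInt.ext
      rw [h0, PadicInt.coe_zero]
    exact (cyc l F g).ne_zero h3
  rw [← h1, smul_smul, inv_mul_cancel₀ h2, one_smul, h1]

theorem RMot.mem_Sim (M : RMot F n w h) (l : ℕ) [Fact l.Prime] (g : Gal F) :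
    M.ρ l g ∈ Sim M.ψ ℚ_[l] :=
  ⟨_, M.gal_sim l g⟩

/-- Sen's theorem: the Hodge-Tate operator is in the span of the Lie algebra over an algebraically
closed field -/
theorem RMot.sen_span (M : RMot F n w h) (l : ℕ) [Fact l.Prime] :
    ∃ (C : Type) (_ : Field C) (_ : IsAlgClosed C) (_ : Algebra ℚ_[l] C)
      (P : Matrix.GeneralLinearGroup (Fin n) C), ∀ H : Subgroup (Gal F),
        IsOpen (H : Set (Gal F)) →
        (P : Matrix (Fin n) (Fin n) C) * Matrix.diagonal (fun j => (h j : C)) *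
          ((P⁻¹ : Matrix.GeneralLinearGroup (Fin n) C) : Matrix (Fin n) (Fin n) C) ∈
        Submodule.span C {B | ∃ A ∈ LieZ (H.map (M.ρ l)), B = A.map (algebraMap ℚ_[l] C)} := by
  obtain ⟨C₀, _, _, P, hP⟩ := M.sen l
  let C := AlgebraicClosure C₀
  letI : Algebra ℚ_[l] C := ((algebraMap C₀ C).comp (algebraMap ℚ_[l] C₀)).toAlgebra
  have halg : algebraMap ℚ_[l] C = (algebraMap C₀ C).comp (algebraMap ℚ_[l] C₀) := rfl
  haveI : CharZero C := charZero_of_injective_algebraMap (algebraMap ℚ_[l] C).injective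
  let P' : Matrix.GeneralLinearGroup (Fin n) C :=
    Matrix.GeneralLinearGroup.map (algebraMap C₀ C) P
  refine ⟨C, inferInstance, inferInstance, inferInstance, P', ?_⟩
  intro H hH
  have hmap : (P' : Matrix (Fin n) (Fin n) C) * Matrix.diagonal (fun j => (h j : C)) *
      ((P'⁻¹ : Matrix.GeneralLinearGroup (Fin n) C) : Matrix (Fin n) (Fin n) C) =
      ((P : Matrix (Fin n) (Fin n) C₀) * Matrix.diagonal (fun j => (h j : C₀)) *
      ((P⁻¹ : Matrix.GeneralLinearGroup (Fin n) C₀) : Matrix (Fin n) (Fin n) C₀)).map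
        (algebraMap C₀ C) := by
    rw [Matrix.map_mul, Matrix.map_mul, Matrix.diagonal_map (map_zero _)]
    have h1 : (P'⁻¹ : Matrix.GeneralLinearGroup (Fin n) C) =
        Matrix.GeneralLinearGroup.map (algebraMap C₀ C) P⁻¹ := by
      rw [map_inv]
    rw [h1]
    simp only [map_natCast]
    rfl
  rw [hmap]
  refine mem_span_of_forms
    (I := {f : MvPolynomial (Fin n × Fin n) ℚ_[l] // ∀ σ ∈ H, ev (mat (M.ρ l) σ) f = 0})
    (fun f i j => ev (1 : Matrix (Fin n) (Fin n) ℚ_[l]) (MvPolynomial.pderiv (i, j) f.1))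
    (LieZ (H.map (M.ρ l))) ?_ C _ ?_
  · intro A hA f hf
    refine hA ⟨f, fun σ hσ => ?_⟩
    exact hf (M.ρ l σ) (Subgroup.mem_map_of_mem _ hσ)
  · intro f
    have h2 := congrArg (algebraMap C₀ C) (hP H hH f.1 f.2)
    simp only [map_sum, map_zero, map_mul] at h2
    simp only [Matrix.map_apply, halg, RingHom.comp_apply]
    exact h2

/-- the image of a subgroup whose Lie algebra is large is dense in the connected group of
similitudes -/
theorem RMot.simC_le (M : RMot F n w h) (hw : 0 < w) (zar : ST_ZAR) (sim : ST_SIM)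
    (sim7 : ST_SIM7) (ism : ST_ISM) (idx : ST_IDX) (fre : ST_FRE) (hcyc : ST_CYC)
    (l : ℕ) [Fact l.Prime] (p₀ : ℕ) (hp₀ : p₀.Prime) (hl : p₀ ≠ l) (H : Subgroup (Gal F)) (e : ℕ)
    (he : 1 ≤ e) (hHe : ∀ g : Gal F, g ^ e ∈ H)
    (hfull : ∀ A : Matrix (Fin n) (Fin n) ℚ_[l],
      A.transpose * bas ℚ_[l] M.ψ + bas ℚ_[l] M.ψ * A = 0 → A ∈ LieZ (H.map (M.ρ l)))
    (K : Type) [Field K] [Algebra ℚ_[l] K] :
    SimC w M.ψ K ⊆ ZC (H.map (M.ρ l) : Set (Matrix.GeneralLinearGroup (Fin n) ℚ_[l])) K := by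
  obtain ⟨𝔓, k₀, g₀, h𝔓, hk₀, hg₀⟩ := exists_frob (F := F) idx fre p₀ hp₀
  have hge : CongPow 𝔓 (p₀ ^ (k₀ * e)) (g₀ ^ e : Gal F) := by
    have := congPow_pow 𝔓 (p₀ ^ k₀) g₀ hg₀ e
    rwa [← pow_mul] at this
  have hk : 1 ≤ k₀ * e := Nat.mul_pos hk₀ he
  set g := g₀ ^ e with hgdef
  set k := k₀ * e with hkdef
  have hg : g ∈ H := hHe g₀
  have hcg : (((cyc l F g : ℤ_[l]ˣ) : ℤ_[l]) : ℚ_[l]) = ((p₀ ^ k : ℕ) : ℚ_[l]) := by
    have h1 := hcyc F F l p₀ hp₀ hl 𝔓 h𝔓 k g hge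
    rw [h1]
    push_cast
    rfl
  obtain ⟨-, -, zldv, -, zmul⟩ := zar ℚ_[l] n (H.map (M.ρ l))
  have hdet := bas_det ℚ_[l] M.ψ M.ψ_det
  -- multipliers
  have hmul : ∀ x ∈ H.map (M.ρ l), ∃ c : ℚ_[l],
      (x : Matrix (Fin n) (Fin n) ℚ_[l]).transpose * bas ℚ_[l] M.ψ *
        (x : Matrix (Fin n) (Fin n) ℚ_[l]) = c • bas ℚ_[l] M.ψ := by
    intro y hy
    obtain ⟨s, -, rfl⟩ := Subgroup.mem_map.mp hy
    exact ⟨_, M.gal_sim l s⟩
  have hinf : {c : ℚ_[l] | ∃ x ∈ H.map (M.ρ l),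
      (x : Matrix (Fin n) (Fin n) ℚ_[l]).transpose * bas ℚ_[l] M.ψ *
        (x : Matrix (Fin n) (Fin n) ℚ_[l]) = c • bas ℚ_[l] M.ψ}.Infinite := by
    have hinj : Function.Injective fun i : ℕ =>
        (((((p₀ ^ k : ℕ) : ℚ_[l]) ^ i) ^ w)⁻¹ : ℚ_[l]) := by
      intro i j hij
      have h1 := inv_injective hij
      rw [← pow_mul, ← pow_mul, ← Nat.cast_pow, ← Nat.cast_pow] at h1
      have h2 : (p₀ ^ k) ^ (i * w) = (p₀ ^ k) ^ (j * w) := by exact_mod_cast h1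
      have h3 : 2 ≤ p₀ ^ k := by
        calc 2 ≤ p₀ := hp₀.two_le
          _ = p₀ ^ 1 := (pow_one _).symm
          _ ≤ p₀ ^ k := Nat.pow_le_pow_right hp₀.pos hk
      exact Nat.eq_of_mul_eq_mul_right hw (Nat.pow_right_injective h3 h2)
    refine (Set.infinite_range_of_injective hinj).mono ?_
    rintro _ ⟨i, rfl⟩
    refine ⟨M.ρ l (g ^ i), Subgroup.mem_map_of_mem _ (H.pow_mem hg i), ?_⟩
    have h1 := M.gal_sim l (g ^ i)
    rw [map_pow (cyc l F)] at h1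
    push_cast at h1
    rw [hcg] at h1
    exact h1
  have hiso : ∀ (L : Type) [Field L] [Algebra ℚ_[l] L] (y : Matrix.GeneralLinearGroup (Fin n) L),
      (y : Matrix (Fin n) (Fin n) L).transpose * (bas ℚ_[l] M.ψ).map (algebraMap ℚ_[l] L) *
        (y : Matrix (Fin n) (Fin n) L) = (bas ℚ_[l] M.ψ).map (algebraMap ℚ_[l] L) →
      (y : Matrix (Fin n) (Fin n) L).det = 1 →
        y ∈ ZC (H.map (M.ρ l) : Set (Matrix.GeneralLinearGroup (Fin n) ℚ_[l])) L := by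
    intro L _ _ y hy hy1
    haveI : CharZero L := charZero_of_injective_algebraMap (algebraMap ℚ_[l] L).injective
    rw [bas_map] at hy
    refine ism L n (bas L M.ψ) _ (bas_det L M.ψ M.ψ_det) ?_ (zmul L) ?_ y hy hy1
    · rcases bas_sym' L M.ψ w M.ψ_sym with ⟨-, h1⟩ | ⟨-, h1⟩
      · exact Or.inl h1
      · exact Or.inr h1
    · intro z hz hz1 f hf
      have hcast : ∃ ε : ℚ_[l], ε * ε = 1 ∧
          (bas ℚ_[l] M.ψ).transpose = ε • bas ℚ_[l] M.ψ := by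
        refine ⟨(-1) ^ w, ?_, bas_sym _ _ _ M.ψ_sym⟩
        rw [← mul_pow]
        simp
      obtain ⟨ε, hε, hεψ⟩ := hcast
      refine isometry_vanish two_ne_zero ε hε (bas ℚ_[l] M.ψ) (isUnit_iff_ne_zero.mpr hdet) hεψ
        {f | ∀ x ∈ H.map (M.ρ l), ev (x : Matrix (Fin n) (Fin n) ℚ_[l]) f = 0} ?_ ?_
        (z : Matrix (Fin n) (Fin n) L) ?_ hz1 f hf
      · intro f hf
        have h1 := hf 1 (Subgroup.one_mem _)
        have h2 := ev_map (algebraMap ℚ_[l] L) (fun _ => rfl) (1 : Matrix (Fin n) (Fin n) ℚ_[l]) f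
        rw [Matrix.map_one _ (map_zero _) (map_one _)] at h2
        rw [← h2]
        rw [Units.val_one] at h1
        rw [h1, map_zero]
      · intro A hA f hf x hx
        exact zldv A (hfull A hA) f hf x hx
      · rw [bas_map]
        exact hz
  rintro x ⟨c, hx, hxd⟩
  have hx' : (x : Matrix (Fin n) (Fin n) K).transpose *
      (bas ℚ_[l] M.ψ).map (algebraMap ℚ_[l] K) * (x : Matrix (Fin n) (Fin n) K) =
        c • (bas ℚ_[l] M.ψ).map (algebraMap ℚ_[l] K) := by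
    haveI : CharZero K := charZero_of_injective_algebraMap (algebraMap ℚ_[l] K).injective
    rw [bas_map]
    exact hx
  rcases bas_sym' ℚ_[l] M.ψ w M.ψ_sym with ⟨-, h1⟩ | ⟨hev, h1⟩
  · exact sim ℚ_[l] n (bas ℚ_[l] M.ψ) (H.map (M.ρ l)) hdet (Or.inl h1) hmul hinf hiso K x c hx'
  · rcases Nat.even_or_odd n with hn | hn
    · exact sim7 ℚ_[l] n (bas ℚ_[l] M.ψ) (H.map (M.ρ l)) hdet hn hmul hinf hiso K x c hx'
        (hxd hev hn)
    · exact sim ℚ_[l] n (bas ℚ_[l] M.ψ) (H.map (M.ρ l)) hdet (Or.inr ⟨h1, hn⟩) hmul hinf hiso K x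
        c hx'

end MR
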