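import Pool.Agent.Helper21.MT10.Defs

/-!
# Polarised pure motives over a number field: realisations

The same as `MT.PMot`, without the assumptions on good and semistable reduction, on the weights of
Frobenius elements, and on the determinants of subrepresentations.
-/

set_option autoImplicit false

open NumberField MU MT

namespace MR

/-- The number `a` is a simple eigenvalue of the similitude `g` with multiplier `c`, and it is
isolated: `a ^ 4 ≠ c ^ 2`, and `a x ≠ y z`, `a ^ 2 ≠ x y`, `a ^ 3 ≠ c x` for all the eigenvalues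
`x`, `y`, `z` different from `a` and `c / a`. -/
def IsoE {K : Type} [Field K] {n : ℕ} (g : Matrix (Fin n) (Fin n) K) (c a : K) : Prop :=
  g.charpoly.rootMultiplicity a = 1 ∧ a ^ 4 ≠ c ^ 2 ∧
    ∀ x y z : K, g.charpoly.IsRoot x → g.charpoly.IsRoot y → g.charpoly.IsRoot z →
      (x ≠ a ∧ x * a ≠ c) → (y ≠ a ∧ y * a ≠ c) → (z ≠ a ∧ z * a ≠ c) →
        a * x ≠ y * z ∧ a ^ 2 ≠ x * y ∧ a ^ 3 ≠ c * x

/-- Polarised (effective) pure motives over `F`, for motivated or absolute Hodge cycles, of rank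
`n`, weight `w` and Hodge types `h`, given by their realisations. -/
structure RMot (F : Type) [Field F] [NumberField F] (n w : ℕ) (h : Fin n → ℕ) where
  /-- the Galois action on the `l`-adic realisation -/
  ρ : ∀ (l : ℕ) [Fact l.Prime], Gal F →* Matrix.GeneralLinearGroup (Fin n) ℚ_[l]
  continuous : ∀ (l : ℕ) [Fact l.Prime], Continuous (ρ l)
  /-- Sen's theorem at a place over `l`: over an extension `C` of `ℚ_l` the Lie algebra of the image
  of every open subgroup contains a diagonalisable operator with eigenvalues `h`. -/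
  sen : ∀ (l : ℕ) [Fact l.Prime], ∃ (C : Type) (_ : Field C) (_ : Algebra ℚ_[l] C)
    (P : Matrix.GeneralLinearGroup (Fin n) C), ∀ H : Subgroup (Gal F), IsOpen (H : Set (Gal F)) →
    ∀ f : MvPolynomial (Fin n × Fin n) ℚ_[l], (∀ σ ∈ H, ev (mat (ρ l) σ) f = 0) →
      ∑ i, ∑ j, ((P : Matrix (Fin n) (Fin n) C) * Matrix.diagonal (fun j => (h j : C)) *
        ((P⁻¹ : Matrix.GeneralLinearGroup (Fin n) C) : Matrix (Fin n) (Fin n) C)) i j *
          algebraMap ℚ_[l] C (ev 1 (MvPolynomial.pderiv (i, j) f)) = 0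
  /-- the polarisation `V ⊗ V → ℚ(- w)` -/
  ψ : Matrix (Fin n) (Fin n) ℚ
  ψ_det : ψ.det ≠ 0
  ψ_sym : ψ.transpose = (-1 : ℚ) ^ w • ψ
  ψ_gal : ∀ (l : ℕ) [Fact l.Prime] (g : Gal F),
    (((cyc l F g : ℤ_[l]ˣ) : ℤ_[l]) : ℚ_[l]) ^ w •
      ((mat (ρ l) g).transpose * bas ℚ_[l] ψ * mat (ρ l) g) = bas ℚ_[l] ψ
  /-- the Hodge structure: the column `j` of this matrix is of type `(h j, w - h j)` -/
  hodge : Matrix.GeneralLinearGroup (Fin n) ℂ
  hodge_le : ∀ j, h j ≤ w
  /-- Hodge symmetry -/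
  hodge_conj : ∀ i j, (((hodge⁻¹ : Matrix.GeneralLinearGroup (Fin n) ℂ) :
    Matrix (Fin n) (Fin n) ℂ) * (hodge : Matrix (Fin n) (Fin n) ℂ).map (starRingEnd ℂ)) i j ≠ 0 →
      h i + h j = w
  /-- the Riemann relations -/
  hodge_ψ : ∀ i j, ((hodge : Matrix (Fin n) (Fin n) ℂ).transpose * bas ℂ ψ *
    (hodge : Matrix (Fin n) (Fin n) ℂ)) i j ≠ 0 → h i + h j = w
  hodge_pos : ∀ (r : ℕ) (v : Fin n → ℂ), v ≠ 0 → (∀ j, h j ≠ r → v j = 0) →
    0 < (Complex.I ^ r * (-Complex.I) ^ (w - r) *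
      dotProduct ((hodge : Matrix (Fin n) (Fin n) ℂ).mulVec v)
        ((bas ℂ ψ).mulVec (star ((hodge : Matrix (Fin n) (Fin n) ℂ).mulVec v)))).re
  /-- the motivic (motivated or absolute Hodge) classes over `F` in `T^(a,b)`: they are rational,
  invariant under the Galois group, Hodge, and contain the class of the polarisation -/
  mot : ∀ a b : ℕ, Set (Tensor n a b ℚ)
  mot_gal : ∀ a b, ∀ t ∈ mot a b, ∀ (l : ℕ) [Fact l.Prime] (g : Gal F),
    act (ρ l g) (t.base ℚ_[l]) = t.base ℚ_[l]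
  mot_hodge : ∀ a b, ∀ t ∈ mot a b, ∀ z : ℂˣ, act (hz hodge h w z) (t.base ℂ) = t.base ℂ
  mot_pol : polTen ψ ∈ mot 2 2

variable {F : Type} [Field F] [NumberField F] {n w : ℕ} {h : Fin n → ℕ}

/-- the points over `K` of the `l`-adic monodromy group: the Zariski closure of the image of the
absolute Galois group of `F` -/
def RMot.Gl (M : RMot F n w h) (l : ℕ) [Fact l.Prime] (K : Type) [Field K] [Algebra ℚ_[l] K] :
    Set (Matrix.GeneralLinearGroup (Fin n) K) :=
  ZC (Set.range (M.ρ l)) K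

/-- the points over `K` of its identity component: the intersection of the Zariski closures of the
images of the open subgroups -/
def RMot.Gl0 (M : RMot F n w h) (l : ℕ) [Fact l.Prime] (K : Type) [Field K] [Algebra ℚ_[l] K] :
    Set (Matrix.GeneralLinearGroup (Fin n) K) :=
  {g | ∀ H : Subgroup (Gal F), IsOpen (H : Set (Gal F)) → g ∈ ZC (M.ρ l '' H) K}

/-- the points over `K` of the motivic Galois group of `M`: the stabiliser of the motivic classes -/
def RMot.Gmot (M : RMot F n w h) (K : Type) [Field K] :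
    Set (Matrix.GeneralLinearGroup (Fin n) K) :=
  {g | ∀ a b, ∀ t ∈ M.mot a b, act g (t.base K) = t.base K}

/-- the Hodge classes in `T^(a,b)` -/
def RMot.IsHodge (M : RMot F n w h) {a b : ℕ} (t : Tensor n a b ℚ) : Prop :=
  ∀ z : ℂˣ, act (hz M.hodge h w z) (t.base ℂ) = t.base ℂ

/-- the points over `K` of the Mumford-Tate group of `M`: the stabiliser of the Hodge classes -/
def RMot.Gsigma (M : RMot F n w h) (K : Type) [Field K] :
    Set (Matrix.GeneralLinearGroup (Fin n) K) :=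
  {g | ∀ (a b : ℕ) (t : Tensor n a b ℚ), M.IsHodge t → act g (t.base K) = t.base K}

/-- The Hodge structure is irreducible (over `ℚ`) -/
def RMot.HIrr (M : RMot F n w h) : Prop :=
  ∀ (m : ℕ) (B : Matrix (Fin n) (Fin m) ℚ), (∃ C : Matrix (Fin m) (Fin n) ℚ, C * B = 1) →
    (∀ z : ℂˣ, ∃ A : Matrix (Fin m) (Fin m) ℂ,
      (hz M.hodge h w z : Matrix (Fin n) (Fin n) ℂ) * B.map (fun x : ℚ => (x : ℂ)) =
        B.map (fun x : ℚ => (x : ℂ)) * A) → m = 0 ∨ m = n

/-- The endomorphisms of the Hodge structure are the rational numbers. -/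
def RMot.HEnd (M : RMot F n w h) : Prop :=
  ∀ X : Matrix (Fin n) (Fin n) ℚ,
    (∀ z : ℂˣ, (hz M.hodge h w z : Matrix (Fin n) (Fin n) ℂ) * bas ℂ X =
      bas ℂ X * (hz M.hodge h w z : Matrix (Fin n) (Fin n) ℂ)) → ∃ c : ℚ, X = c • 1

/-- The `l`-adic realisation is irreducible with scalar endomorphisms over every finite extension. -/
def RMot.LEnd (M : RMot F n w h) (l : ℕ) [Fact l.Prime] : Prop :=
  ∀ H : Subgroup (Gal F), IsOpen (H : Set (Gal F)) →
    IsIrr ((mat (M.ρ l)).comp H.subtype) ∧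
    ∀ X : Matrix (Fin n) (Fin n) ℚ_[l], (∀ g ∈ H, mat (M.ρ l) g * X = X * mat (M.ρ l) g) →
      ∃ c : ℚ_[l], X = c • 1

/-- The Hodge structure has endomorphisms `ℚ`; or it is irreducible with middle Hodge number
one. -/
def RMot.AIrrH (M : RMot F n w h) : Prop := M.HEnd ∨ (Mid w h ∧ M.HIrr)

/-- The `l`-adic realisation is irreducible with scalar endomorphisms over every finite extension;
or it is irreducible and the middle Hodge number is one. -/
def RMot.AIrrL (M : RMot F n w h) (l : ℕ) [Fact l.Prime] : Prop :=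
  M.LEnd l ∨ (Mid w h ∧ IsIrr (mat (M.ρ l)))

/-- Some Galois element has an isolated simple eigenvalue on the `l`-adic realisation: it is a
similitude with multiplier `c` and simple eigenvalue `a` (in an algebraically closed field `C`),
`a ^ 4 ≠ c ^ 2`, and `a x ≠ y z`, `a ^ 2 ≠ x y`, `a ^ 3 ≠ c x` for all the eigenvalues `x`, `y`, `z`
different from `a` and `c / a` (and there are such eigenvalues, that is, `n ≥ 3`). -/
def RMot.IsoEig (M : RMot F n w h) (l : ℕ) [Fact l.Prime] : Prop :=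
  3 ≤ n ∧ ∃ (σ : Gal F) (C : Type) (_ : Field C) (_ : Algebra ℚ_[l] C) (_ : IsAlgClosed C) (c : ℚ_[l])
    (a : C), (mat (M.ρ l) σ).transpose * bas ℚ_[l] M.ψ * mat (M.ρ l) σ = c • bas ℚ_[l] M.ψ ∧
      IsoE ((mat (M.ρ l) σ).map (algebraMap ℚ_[l] C)) (algebraMap ℚ_[l] C c) a

end MR
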