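import Pool.Agent.Helper21.RM.StmtsE
import Pool.Agent.Helper21.MT7.Stmts

/-!
# Exact statements of the modules (T12): the same as in MT7, MT9, MT10, for `RMot`
-/

set_option autoImplicit false

open NumberField MU MT

namespace MR

/-- IRL: the Lie algebra is absolutely irreducible (from LGP and DEN; or OI1, OI2 and DEN). -/
def ST_IRL : Prop :=
  ∀ (F : Type) [Field F] [NumberField F] (n w : ℕ) (h : Fin n → ℕ)
    (M : RMot F n w h) (l : ℕ) [Fact l.Prime], 0 < w → M.AIrrL l →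
      ∀ H : Subgroup (Gal F), IsOpen (H : Set (Gal F)) → ∀ (K : Type) [Field K]
        [Algebra ℚ_[l] K] (U : Submodule K (Fin n → K)),
        (∀ A ∈ LieZ (H.map (M.ρ l)), ∀ v ∈ U, (A.map (algebraMap ℚ_[l] K)).mulVec v ∈ U) →
          U = ⊥ ∨ U = ⊤

/-- HLA: the Lie algebra of the Mumford-Tate group. -/
def ST_HLA : Prop :=
  ∀ (F : Type) [Field F] [NumberField F] (n w : ℕ) (h : Fin n → ℕ)
    (M : RMot F n w h), ∃ a : Submodule ℚ (Matrix (Fin n) (Fin n) ℚ),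
      (∀ A, A ∈ a ↔ ∀ (p q : ℕ) (t : Tensor n p q ℚ), M.IsHodge t → HD.Kill A t) ∧
      Brk a ∧ (∀ A ∈ a, ∃ c : ℚ, A.transpose * M.ψ + M.ψ * A = c • M.ψ) ∧
      (M.hodge : Matrix (Fin n) (Fin n) ℂ) * Matrix.diagonal (fun j => (h j : ℂ)) *
        ((M.hodge⁻¹ : Matrix.GeneralLinearGroup (Fin n) ℂ) : Matrix (Fin n) (Fin n) ℂ) ∈
          Submodule.span ℂ {B | ∃ A ∈ a, B = A.map (algebraMap ℚ ℂ)}

/-- HIR: irreducibility (polarised Hodge structures are semisimple). -/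
def ST_HIR : Prop :=
  ∀ (F : Type) [Field F] [NumberField F] (n w : ℕ) (h : Fin n → ℕ)
    (M : RMot F n w h) (a : Submodule ℚ (Matrix (Fin n) (Fin n) ℚ)), M.AIrrH →
    (∀ A ∈ a, ∃ c : ℚ, A.transpose * M.ψ + M.ψ * A = c • M.ψ) →
    (M.hodge : Matrix (Fin n) (Fin n) ℂ) * Matrix.diagonal (fun j => (h j : ℂ)) *
      ((M.hodge⁻¹ : Matrix.GeneralLinearGroup (Fin n) ℂ) : Matrix (Fin n) (Fin n) ℂ) ∈
        Submodule.span ℂ {B | ∃ A ∈ a, B = A.map (algebraMap ℚ ℂ)} →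
    LIrr a ∧ ∀ Y : Matrix (Fin n) (Fin n) ℚ, (∀ A ∈ a, A * Y = Y * A) → ∃ c : ℚ, Y = c • 1

/-- HWT: the weight of a Hodge class is zero (contained in helper6's `ST_HOD`). -/
def ST_HWT : Prop :=
  ∀ (F : Type) [Field F] [NumberField F] (n w : ℕ) (h : Fin n → ℕ)
    (M : RMot F n w h) (p q : ℕ) (t : Tensor n p q ℚ), 0 < w → M.IsHodge t → t ≠ 0 → p = q

/-- HSM: the Hodge types are symmetric. -/
def ST_HSM : Prop :=
  ∀ (F : Type) [Field F] [NumberField F] (n w : ℕ) (h : Fin n → ℕ)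
    (_ : RMot F n w h), 2 * ∑ j, h j = n * w

/-- HDG7: the Mumford-Tate group is contained in the connected group of similitudes. -/
def ST_HDG7 : Prop :=
  ∀ (F : Type) [Field F] [NumberField F] (n w : ℕ) (h : Fin n → ℕ)
    (M : RMot F n w h) (K : Type) [Field K] [CharZero K], 1 ≤ n → M.Gsigma K ⊆ SimC w M.ψ K

/-- G07: the identity component of the `l`-adic monodromy group is contained in the connected group
of similitudes. -/
def ST_G07 : Prop :=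
  ∀ (F : Type) [Field F] [NumberField F] (n w : ℕ) (h : Fin n → ℕ)
    (M : RMot F n w h) (l : ℕ) [Fact l.Prime] (K : Type) [Field K] [Algebra ℚ_[l] K], 1 ≤ n →
      M.Gl0 l K ⊆ SimC w M.ψ K

/-- FUL: the Lie algebra is large. -/
def ST_FUL : Prop :=
  ∀ (F : Type) [Field F] [NumberField F] (n w : ℕ) (h : Fin n → ℕ)
    (M : RMot F n w h) (l : ℕ) [Fact l.Prime], 0 < w → M.AIrrL l → (Good w h ∨ M.IsoEig l) →
      ∀ H : Subgroup (Gal F), IsOpen (H : Set (Gal F)) → ∀ A : Matrix (Fin n) (Fin n) ℚ_[l],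
        A.transpose * bas ℚ_[l] M.ψ + bas ℚ_[l] M.ψ * A = 0 → A ∈ LieZ (H.map (M.ρ l))

/-- HSG: the Mumford-Tate group. -/
def ST_HSG : Prop :=
  ∀ (F : Type) [Field F] [NumberField F] (n w : ℕ) (h : Fin n → ℕ)
    (M : RMot F n w h), 0 < w → Good w h → M.AIrrH → ∀ (K : Type) [Field K] [CharZero K],
      M.Gsigma K = SimC w M.ψ K

/-- MAIN: the theorem. -/
def ST_MAIN : Prop :=
  ∀ (F : Type) [Field F] [NumberField F] (n w : ℕ) (h : Fin n → ℕ)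
    (M : RMot F n w h), 0 < w →
    (M.AIrrH → Good w h → ∀ (K : Type) [Field K] [CharZero K],
      M.Gsigma K = SimC w M.ψ K ∧ M.Gsigma K ⊆ M.Gmot K ∧ M.Gmot K ⊆ Sim M.ψ K) ∧
    ∀ (l : ℕ) [Fact l.Prime], M.AIrrL l → (Good w h ∨ M.IsoEig l) →
      ∀ (K : Type) [Field K] [Algebra ℚ_[l] K],
      (∀ H : Subgroup (Gal F), IsOpen (H : Set (Gal F)) → SimC w M.ψ K ⊆ ZC (M.ρ l '' H) K) ∧
      M.Gl0 l K = SimC w M.ψ K ∧ M.Gl0 l K ⊆ M.Gl l K ∧ M.Gl l K ⊆ M.Gmot K ∧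
      M.Gmot K ⊆ Sim M.ψ K ∧ (Odd w ∨ Odd n → SimC w M.ψ K = Sim M.ψ K) ∧
      M.Gsigma K ⊆ M.Gl0 l K ∧ (M.AIrrH → Good w h → M.Gl0 l K = M.Gsigma K) ∧
      ((∀ (a b : ℕ) (t : Tensor n a b ℚ), M.IsHodge t → ∃ H : Subgroup (Gal F),
        IsOpen (H : Set (Gal F)) ∧
          ∀ g ∈ H, act (M.ρ l g) (t.base ℚ_[l]) = t.base ℚ_[l]) → M.Gl0 l K = M.Gsigma K)

end MR
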