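import Pool.Agent.Helper21.RM.Defs
import Pool.Agent.Helper21.MT10.Stmts

/-!
# Isolated eigenvalues: exact statements of the modules (T12, part E)
Proofs: /team-store/rm_helper21.md
-/

set_option autoImplicit false

open MT

namespace MR

/-- ADS: for `T = Ad g` and `D = ad C`, commuting: a subspace stable under `T` is stable under `D` if
eigenvectors of `T` in different eigenspaces of `D` have different eigenvalues. -/
def ST_ADS : Prop :=
  ∀ (K : Type) [Field K] [CharZero K] [IsAlgClosed K] (n : ℕ)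
    (g : Matrix.GeneralLinearGroup (Fin n) K) (C : Matrix (Fin n) (Fin n) K),
    C * (g : Matrix (Fin n) (Fin n) K) = (g : Matrix (Fin n) (Fin n) K) * C → C * C * C = C →
    (∀ (t k l : K) (A B : Matrix (Fin n) (Fin n) K), A ≠ 0 → B ≠ 0 →
      (g : Matrix (Fin n) (Fin n) K) * A = t • (A * (g : Matrix (Fin n) (Fin n) K)) →
      (g : Matrix (Fin n) (Fin n) K) * B = t • (B * (g : Matrix (Fin n) (Fin n) K)) →
      C * A - A * C = k • A → C * B - B * C = l • B → k = l) →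
    ∀ a : Submodule K (Matrix (Fin n) (Fin n) K),
      (∀ A ∈ a, (g : Matrix (Fin n) (Fin n) K) * A *
        ((g⁻¹ : Matrix.GeneralLinearGroup (Fin n) K) : Matrix (Fin n) (Fin n) K) ∈ a) →
      ∀ A ∈ a, C * A - A * C ∈ a

/-- SPC: the operator `C` of an isolated simple eigenvalue (the projection onto the eigenline of `a`
minus the projection onto the eigenline of `c / a`; a polynomial in `g`). -/
def ST_SPC : Prop :=
  ∀ (K : Type) [Field K] [CharZero K] [IsAlgClosed K] (n : ℕ) (ε : K)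
    (ψ : Matrix (Fin n) (Fin n) K) (g : Matrix.GeneralLinearGroup (Fin n) K) (c a : K), 3 ≤ n →
    ψ.det ≠ 0 → ψ.transpose = ε • ψ → (ε = 1 ∨ ε = -1) →
    (g : Matrix (Fin n) (Fin n) K).transpose * ψ * (g : Matrix (Fin n) (Fin n) K) = c • ψ →
    IsoE (g : Matrix (Fin n) (Fin n) K) c a →
    ∃ (P : Matrix.GeneralLinearGroup (Fin n) K) (s : Fin n → ℤ) (C : Matrix (Fin n) (Fin n) K),
      C = (P : Matrix (Fin n) (Fin n) K) * Matrix.diagonal (fun j => (s j : K)) *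
        ((P⁻¹ : Matrix.GeneralLinearGroup (Fin n) K) : Matrix (Fin n) (Fin n) K) ∧
      (∀ j, |s j| ≤ 1) ∧ (Finset.univ.filter fun j => s j = 1).card = 1 ∧ (∃ j, s j = 0) ∧
      C.transpose * ψ + ψ * C = 0 ∧
      C * (g : Matrix (Fin n) (Fin n) K) = (g : Matrix (Fin n) (Fin n) K) * C ∧
      ∀ (t k l : K) (A B : Matrix (Fin n) (Fin n) K), A ≠ 0 → B ≠ 0 →
        (g : Matrix (Fin n) (Fin n) K) * A = t • (A * (g : Matrix (Fin n) (Fin n) K)) →
        (g : Matrix (Fin n) (Fin n) K) * B = t • (B * (g : Matrix (Fin n) (Fin n) K)) →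
        C * A - A * C = k • A → C * B - B * C = l • B → k = l

/-- EIG: the Lie theorem (from SPC, ADS, `MT.ST_DRV`, `MT.ST_GRA`, `MT.ST_ONE`). -/
def ST_EIG : Prop :=
  ∀ (K : Type) [Field K] [CharZero K] [IsAlgClosed K] (n : ℕ) (ε : K)
    (ψ : Matrix (Fin n) (Fin n) K) (g : Matrix.GeneralLinearGroup (Fin n) K) (c a : K)
    (L : Submodule K (Matrix (Fin n) (Fin n) K)), 3 ≤ n → ψ.det ≠ 0 → ψ.transpose = ε • ψ →
    (ε = 1 ∨ ε = -1) →
    (g : Matrix (Fin n) (Fin n) K).transpose * ψ * (g : Matrix (Fin n) (Fin n) K) = c • ψ →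
    IsoE (g : Matrix (Fin n) (Fin n) K) c a → Brk L → LIrr L →
    (∀ A ∈ L, A.transpose * ψ + ψ * A = 0) →
    (∀ A ∈ L, (g : Matrix (Fin n) (Fin n) K) * A *
      ((g⁻¹ : Matrix.GeneralLinearGroup (Fin n) K) : Matrix (Fin n) (Fin n) K) ∈ L) →
    ∀ A : Matrix (Fin n) (Fin n) K, A.transpose * ψ + ψ * A = 0 → A ∈ L

/-- TOSE: from an irreducible Lie algebra of similitudes over `K₀` (from `MT.ST_RED` and EIG; see
helper2's TOS). -/
def ST_TOSE : Prop :=
  ∀ (K₀ K : Type) [Field K₀] [Field K] [CharZero K] [IsAlgClosed K] [Algebra K₀ K] (n w : ℕ)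
    (ψ : Matrix (Fin n) (Fin n) K₀) (g : Matrix.GeneralLinearGroup (Fin n) K₀) (c : K₀) (a : K)
    (L : Submodule K₀ (Matrix (Fin n) (Fin n) K₀)), 3 ≤ n → ψ.det ≠ 0 →
    ψ.transpose = (-1 : K₀) ^ w • ψ → Brk L →
    (∀ A ∈ L, ∃ c : K₀, A.transpose * ψ + ψ * A = c • ψ) →
    (∀ U : Submodule K (Fin n → K),
      (∀ A ∈ L, ∀ v ∈ U, (A.map (algebraMap K₀ K)).mulVec v ∈ U) → U = ⊥ ∨ U = ⊤) →
    (g : Matrix (Fin n) (Fin n) K₀).transpose * ψ * (g : Matrix (Fin n) (Fin n) K₀) = c • ψ →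
    IsoE ((g : Matrix (Fin n) (Fin n) K₀).map (algebraMap K₀ K)) (algebraMap K₀ K c) a →
    (∀ A ∈ L, (g : Matrix (Fin n) (Fin n) K₀) * A *
      ((g⁻¹ : Matrix.GeneralLinearGroup (Fin n) K₀) : Matrix (Fin n) (Fin n) K₀) ∈ L) →
    ∀ A : Matrix (Fin n) (Fin n) K₀, A.transpose * ψ + ψ * A = 0 → A ∈ L

end MR
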